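import Pool.Agent.Q20.RS.Def

/-!
# Stark's conjecture and units of cyclic extensions: definitions
-/

set_option autoImplicit false
set_option linter.unusedSectionVars false

namespace Pool.Agent.Q20.CU

open NumberField IsDedekindDomain Pool.Agent.Q20.RS

/-- **Stark's conjecture**: `A_S(χ, φ)^σ = A_S(χ^σ, φ)` for all Galois extensions `L/K` of number fields,
all finite `Gal(L/K)`-stable sets `T` of primes of `L` which contain a prime above every prime of `K`
ramified in `L` (`S` consists of the primes below those in `T` and of the archimedean places), all maps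
`φ`, all representations `V` (with character `χ`), and all automorphisms `σ` of `ℂ`; `V'` is a
representation with character `χ^σ` -/
def StarkConjecture : Prop :=
  ∀ (K L : Type) [Field K] [NumberField K] [Field L] [NumberField L] [Algebra K L] [IsGalois K L]
    (T : Finset (HeightOneSpectrum (𝓞 L))) (hT : Stable K T), ContainsRamified K T →
    ∀ (φ : StarkMap hT) (V V' : Type) [AddCommGroup V] [Module ℂ V] [FiniteDimensional ℂ V]
      [AddCommGroup V'] [Module ℂ V'] [FiniteDimensional ℂ V']
      (ρ : Representation ℂ (L ≃ₐ[K] L) V) (ρ' : Representation ℂ (L ≃ₐ[K] L) V') (σ : ℂ ≃+* ℂ),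
      (∀ g, ρ'.character g = σ (ρ.character g)) → σ (starkA φ ρ) = starkA φ ρ'

section
variable (E L : Type) [Field E] [NumberField E] [Field L] [NumberField L] [Algebra E L]

/-- `w_1, …, w_r` are representatives of the orbits of the archimedean places of `L` with trivial
decomposition group in `Gal(L/E)`, that is of the archimedean places of `E` which split completely -/
structure SplitPlaces {r : ℕ} (w : Fin r → InfinitePlace L) : Prop where
  split : ∀ (i : Fin r) (g : L ≃ₐ[E] L), g • w i = w i → g = 1
  dist : ∀ (i j : Fin r) (g : L ≃ₐ[E] L), g • w i = w j → i = j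
  all : ∀ v : InfinitePlace L, (∀ g : L ≃ₐ[E] L, g • v = v → g = 1) →
    ∃ (i : Fin r) (g : L ≃ₐ[E] L), g • w i = v

/-- the matrix `(∑_g χ(g) log |g u_j|_{w_i})`, with the normalised absolute values -/
noncomputable def logMatrix {r : ℕ} (χ : (L ≃ₐ[E] L) →* ℂˣ) (u : Fin r → L)
    (w : Fin r → InfinitePlace L) : Matrix (Fin r) (Fin r) ℂ :=
  Matrix.of fun i j => ∑ g : L ≃ₐ[E] L, (χ g : ℂ) * ((logv (g (u j)) (.inr (w i)) : ℝ) : ℂ)

/-- **The unit statement** for the abelian extension `L/E` with group `G`: there are units `u_1, …, u_r`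
of `L` and `c = ∑_g a_g g ∈ ℚ[G]` such that `L^*(0, χ) = χ(c) det(∑_g χ(g) log |g u_j|_{w_i})` for all
injective characters `χ` of `G`; `L(s, χ)` is the L-function without the Euler factors at the primes
ramified in `L` (these factors are `1`) -/
def UnitStatement : Prop :=
  ∀ T : Finset (HeightOneSpectrum (𝓞 L)), (∀ P, P ∈ T ↔ ¬ Unrm L (P.under (𝓞 E))) →
    ∀ (r : ℕ) (w : Fin r → InfinitePlace L), SplitPlaces E L w →
      ∃ (a : (L ≃ₐ[E] L) → ℚ) (u : Fin r → L),
        (∀ j (P : HeightOneSpectrum (𝓞 L)), NumberField.HeightOneSpectrum.adicAbv L P (u j) = 1) ∧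
        ∀ χ : (L ≃ₐ[E] L) →* ℂˣ, Function.Injective χ →
          leading T (fun g => (χ g : ℂ)) =
            (∑ g, (a g : ℂ) * (χ g : ℂ)) * (logMatrix E L χ u w).det

/-- all primes of `E` which are ramified in `L` lie above one prime number `p`, and the primes of `E`
above the other elements of `Q` split completely in `L` -/
def OnePrime (Q : Finset ℕ) : Prop :=
  ∃ p : ℕ, p.Prime ∧ (∀ v : HeightOneSpectrum (𝓞 E), ¬ Unrm L v → ((p : ℕ) : 𝓞 E) ∈ v.asIdeal) ∧
    ∀ q ∈ Q, q ≠ p → ∀ P : HeightOneSpectrum (𝓞 L), ((q : ℕ) : 𝓞 L) ∈ P.asIdeal →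
      ∀ g : L ≃ₐ[E] L, pra g P = P → g = 1

/-- the cyclic extensions of degree greater than `1` for which (a) `E` is totally complex and all
ramified primes lie above one prime number (and the primes above the other elements of `Q` split
completely), or (b) `E` is totally complex and the degree is a power of an odd prime, or (c) the degree
is a power of `2` and `L` is totally complex or unramified over `E` at all primes -/
structure Special (Q : Finset ℕ) : Prop where
  cyclic : IsCyclic (L ≃ₐ[E] L)
  ne : ∃ g : L ≃ₐ[E] L, g ≠ 1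
  cases : (IsEmpty (E →+* ℝ) ∧ (OnePrime E L Q ∨
      ∃ p k : ℕ, p.Prime ∧ p ≠ 2 ∧ Nat.card (L ≃ₐ[E] L) = p ^ k)) ∨
    ((∃ k : ℕ, Nat.card (L ≃ₐ[E] L) = 2 ^ k) ∧
      (IsEmpty (L →+* ℝ) ∨ ∀ v : HeightOneSpectrum (𝓞 E), Unrm L v))

end

end Pool.Agent.Q20.CU
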