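import Pool.Agent.Q20.SI.Fou

/-!
# The injective characters of a cyclic group are conjugate
-/

set_option autoImplicit false
set_option linter.unusedSectionVars false

namespace Pool.Agent.Q20.CU

open Pool.Agent.Q20.SI Polynomial

/-- primitive roots of unity are conjugate -/
theorem exists_root_aut {n : ℕ} (hn : 0 < n) {z z' : ℂ} (hz : IsPrimitiveRoot z n)
    (hz' : IsPrimitiveRoot z' n) : ∃ σ : ℂ ≃+* ℂ, σ z = z' := by
  set p : ℚ[X] := cyclotomic n ℚ with hp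
  have hp0 : p ≠ 0 := cyclotomic_ne_zero n ℚ
  have hspl : (p.map (algebraMap ℚ ℂ)).Splits := IsAlgClosed.splits _
  have hsf : p.IsSplittingField ℚ (IntermediateField.adjoin ℚ (p.rootSet ℂ)) :=
    IntermediateField.adjoin_rootSet_isSplittingField hspl
  let L := IntermediateField.adjoin ℚ (p.rootSet ℂ)
  have _ : Normal ℚ L := Normal.of_isSplittingField p
  have e1 : cyclotomic n ℚ = minpoly ℚ z := cyclotomic_eq_minpoly_rat hz hn
  have e2 : cyclotomic n ℚ = minpoly ℚ z' := cyclotomic_eq_minpoly_rat hz' hn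
  have hzL : z ∈ L := by
    apply IntermediateField.subset_adjoin
    rw [Polynomial.mem_rootSet]
    exact ⟨hp0, by rw [hp, e1]; exact minpoly.aeval ℚ z⟩
  have hzL' : z' ∈ L := by
    apply IntermediateField.subset_adjoin
    rw [Polynomial.mem_rootSet]
    exact ⟨hp0, by rw [hp, e2]; exact minpoly.aeval ℚ z'⟩
  have h1 : IsConjRoot ℚ (⟨z, hzL⟩ : L) ⟨z', hzL'⟩ := by
    unfold IsConjRoot
    have h2 : minpoly ℚ (⟨z, hzL⟩ : L) = minpoly ℚ z :=
      (minpoly.algebraMap_eq (algebraMap L ℂ).injective (⟨z, hzL⟩ : L)).symm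
    have h3 : minpoly ℚ (⟨z', hzL'⟩ : L) = minpoly ℚ z' :=
      (minpoly.algebraMap_eq (algebraMap L ℂ).injective (⟨z', hzL'⟩ : L)).symm
    rw [h2, h3, ← e1, ← e2]
  obtain ⟨g, hg⟩ := (isConjRoot_iff_exists_algEquiv).1 h1
  obtain ⟨σ, hσ⟩ := Pool.Agent.H977R3.CM.exists_aut (L.val : L →+* ℂ) (g.symm : L ≃+* L)
  refine ⟨σ, ?_⟩
  have h2 := hσ ⟨z, hzL⟩
  refine h2.trans ?_
  have h3 : (g.symm : L ≃+* L) ⟨z, hzL⟩ = ⟨z', hzL'⟩ := by
    change g.symm ⟨z, hzL⟩ = _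
    rw [← hg, AlgEquiv.symm_apply_apply]
  rw [h3]
  rfl

/-- **The injective characters of a cyclic group are conjugate.** -/
theorem exists_cj {G : Type} [Group G] [Fintype G] (hG : IsCyclic G) {χ χ₀ : G →* ℂˣ}
    (h : Function.Injective χ) (h₀ : Function.Injective χ₀) : ∃ σ : ℂ ≃+* ℂ, χ = cj σ χ₀ := by
  obtain ⟨g, hg⟩ := hG
  have hpos : 0 < orderOf g := orderOf_pos g
  have hp : ∀ ψ : G →* ℂˣ, Function.Injective ψ →
      IsPrimitiveRoot ((ψ g : ℂˣ) : ℂ) (orderOf g) := by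
    intro ψ hψ
    have h1 : orderOf ((ψ g : ℂˣ) : ℂ) = orderOf g := by
      rw [orderOf_units, orderOf_injective ψ hψ]
    rw [← h1]
    exact IsPrimitiveRoot.orderOf _
  obtain ⟨σ, hσ⟩ := exists_root_aut hpos (hp χ₀ h₀) (hp χ h)
  refine ⟨σ, MonoidHom.ext fun x => ?_⟩
  obtain ⟨k, rfl⟩ := hg x
  have h2 : χ g = cj σ χ₀ g := Units.ext hσ.symm
  change χ (g ^ k) = cj σ χ₀ (g ^ k)
  rw [map_zpow, map_zpow, h2]

end Pool.Agent.Q20.CU
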