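import Pool.Agent.Q20.CU.Def
import Pool.Agent.Q20.SI.Rel

/-!
# Stark's conjecture from its case of linear characters
-/

set_option autoImplicit false
set_option linter.unusedSectionVars false

namespace Pool.Agent.Q20.CU

open NumberField IsDedekindDomain Pool.Agent.Q20.RS Pool.Agent.Q92.AR Pool.Agent.Q20.SI
open Pool.Agent.H541R3.ART (Irr irrF mem_irrF)
open Pool.Agent.Q92.RT (induced)
open Pool.Agent.Q20.RS.RL (StarkEq)

section
variable {K M : Type} [Field K] [NumberField K] [Field M] [NumberField M] [Algebra K M]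
  [IsGalois K M] {T : Finset (HeightOneSpectrum (𝓞 M))} {hT : Stable K T}

/-- **The virtual characters for which Stark's equality holds** -/
noncomputable def SE (θ : StarkMap hT) (σ : ℂ ≃+* ℂ) : AddSubgroup ((M ≃ₐ[K] M) → ℂ) where
  carrier := {f | ∃ (h : f ∈ PP θ) (h' : (fun g => σ (f g)) ∈ PP θ),
    σ (val θ ⟨f, h⟩) = val θ ⟨_, h'⟩}
  add_mem' := fun {a b} ha hb => by
    obtain ⟨h1, h1', e1⟩ := ha
    obtain ⟨h2, h2', e2⟩ := hb
    have h3 : (fun g => σ ((a + b) g)) = (fun g => σ (a g)) + fun g => σ (b g) :=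
      funext fun g => map_add σ _ _
    have h4 : (fun g => σ ((a + b) g)) ∈ PP θ := h3 ▸ add_mem h1' h2'
    refine ⟨add_mem h1 h2, h4, ?_⟩
    have e3 : val θ ⟨a + b, add_mem h1 h2⟩ = val θ ⟨a, h1⟩ * val θ ⟨b, h2⟩ :=
      val_add θ ⟨a, h1⟩ ⟨b, h2⟩
    have e4 : val θ ⟨fun g => σ ((a + b) g), h4⟩ = val θ ⟨_, h1'⟩ * val θ ⟨_, h2'⟩ := by
      rw [← val_add]
      congr 1
      exact Subtype.ext h3
    rw [e3, e4, map_mul, e1, e2]
  zero_mem' := by
    have h3 : (fun g => σ ((0 : (M ≃ₐ[K] M) → ℂ) g)) = 0 := funext fun g => map_zero σ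
    have h4 : (fun g => σ ((0 : (M ≃ₐ[K] M) → ℂ) g)) ∈ PP θ := by
      rw [h3]
      exact zero_mem _
    refine ⟨zero_mem _, h4, ?_⟩
    have e1 : val θ ⟨0, zero_mem _⟩ = 1 := val_zero θ
    have e2 : val θ ⟨fun g => σ ((0 : (M ≃ₐ[K] M) → ℂ) g), h4⟩ = 1 := by
      rw [← val_zero θ]
      congr 1
      exact Subtype.ext h3
    rw [e1, e2, map_one]
  neg_mem' := fun {a} ha => by
    obtain ⟨h1, h1', e1⟩ := ha
    have h3 : (fun g => σ ((-a) g)) = -fun g => σ (a g) := funext fun g => map_neg σ _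
    have h4 : (fun g => σ ((-a) g)) ∈ PP θ := h3 ▸ neg_mem h1'
    refine ⟨neg_mem h1, h4, ?_⟩
    have e3 : val θ ⟨-a, neg_mem h1⟩ = (val θ ⟨a, h1⟩)⁻¹ := val_neg θ ⟨a, h1⟩
    have e4 : val θ ⟨fun g => σ ((-a) g), h4⟩ = (val θ ⟨_, h1'⟩)⁻¹ := by
      rw [← val_neg]
      congr 1
      exact Subtype.ext h3
    rw [e3, e4, map_inv₀, e1]

/-- Brauer's theorem -/
theorem char_in (X : AddSubgroup ((M ≃ₐ[K] M) → ℂ))
    (hX : ∀ (H : Subgroup (M ≃ₐ[K] M)) (ψ : H →* ℂˣ), induced H ψ ∈ X)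
    {U : Type} [AddCommGroup U] [Module ℂ U] [FiniteDimensional ℂ U]
    (ρ : Representation ℂ (M ≃ₐ[K] M) U) : ρ.character ∈ X := by
  classical
  have h0 : (Nat.card (M ≃ₐ[K] M) : ℂ) ≠ 0 := by exact_mod_cast Nat.card_pos.ne'
  have hirr : ∀ χ ∈ Irr (M ≃ₐ[K] M), χ ∈ X := by
    intro χ hχ
    obtain ⟨ι, _, H, ψ, n, h⟩ := brauer _ χ hχ
    have h1 : χ = ∑ i, n i • induced (H i) (ψ i) := by
      funext g
      rw [h g, Finset.sum_apply]
      exact Finset.sum_congr rfl fun i _ => by rw [Pi.smul_apply, zsmul_eq_mul]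
    rw [h1]
    exact X.sum_mem fun i _ => X.zsmul_mem (hX (H i) (ψ i)) (n i)
  have hm : ∀ χ ∈ Irr (M ≃ₐ[K] M), ∃ m : ℕ,
      ∑ g, ρ.character g * χ g⁻¹ = (m : ℂ) * Nat.card (M ≃ₐ[K] M) := by
    rintro χ ⟨n, τ, -, rfl⟩
    let _ : Invertible (Nat.card (M ≃ₐ[K] M) : ℂ) := invertibleOfNonzero h0
    refine ⟨Module.finrank ℂ (Representation.IntertwiningMap τ ρ), ?_⟩
    rw [← Representation.card_inv_mul_sum_char_mul_char_eq_finrank τ ρ]
    field_simp
  choose! m hm using hm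
  have h1 : ρ.character = ∑ χ ∈ irrF (M ≃ₐ[K] M), m χ • χ := by
    funext g
    rw [Pool.Agent.Q92.RT.class_expand (θ := ρ.character) (m := fun χ => (m χ : ℂ))
      (fun g x => Representation.char_conj _ _ _) hm g, Finset.sum_apply]
    exact Finset.sum_congr rfl fun χ _ => by rw [Pi.smul_apply, nsmul_eq_mul]
  rw [h1]
  exact X.sum_mem fun χ hχ => X.nsmul_mem (hirr χ (mem_irrF.1 hχ)) _

/-- Stark's equality for a linear character at one level -/
def LinOK (θ : StarkMap hT) (σ : ℂ ≃+* ℂ) (χ : (M ≃ₐ[K] M) →* ℂˣ) : Prop :=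
  σ (starkA θ (linRep χ)) = starkA θ (linRep (cj σ χ))

end

section
variable {K F M : Type} [Field K] [NumberField K] [Field F] [NumberField F] [Field M] [NumberField M]
  [Algebra K F] [Algebra K M] [Algebra F M] [IsScalarTower K F M] [IsGalois K M] [IsGalois F M]
  {T : Finset (HeightOneSpectrum (𝓞 M))} {hT : Stable K T}

theorem se_of_lin (hR : ContainsRamified K T) (θ : StarkMap hT) (hT' : Stable F T)
    (σ : ℂ ≃+* ℂ) (χ : (M ≃ₐ[F] M) →* ℂˣ) (h : LinOK (θ.res (F := F) hT') σ χ) :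
    indj (rsc K F M) (fun y => ((χ y : ℂˣ) : ℂ)) ∈ SE θ σ := by
  have hc : ∀ χ : (M ≃ₐ[F] M) →* ℂˣ, (linRep χ).character = fun y => ((χ y : ℂˣ) : ℂ) :=
    fun χ => funext fun y => linRep_char χ y
  obtain ⟨h1, e1⟩ := starkA_val hR θ hT' (linRep χ)
  obtain ⟨h2, e2⟩ := starkA_val hR θ hT' (linRep (cj σ χ))
  have h3 : (fun g => σ (indj (rsc K F M) (linRep χ).character g)) =
      indj (rsc K F M) (linRep (cj σ χ)).character := by
    rw [indj_conj, hc, hc]
    rfl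
  have h4 : indj (rsc K F M) (linRep χ).character ∈ SE θ σ := by
    refine ⟨h1, h3 ▸ h2, ?_⟩
    rw [← e1]
    refine Eq.trans h (e2.trans ?_)
    congr 1
    exact Subtype.ext h3.symm
  rwa [hc] at h4

end

section
variable {K M : Type} [Field K] [NumberField K] [Field M] [NumberField M] [Algebra K M]
  [IsGalois K M] {T : Finset (HeightOneSpectrum (𝓞 M))} {hT : Stable K T}

theorem se_induced (hR : ContainsRamified K T) (θ : StarkMap hT) (σ : ℂ ≃+* ℂ)
    (H : Subgroup (M ≃ₐ[K] M)) (ψ : H →* ℂˣ)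
    (h : ∀ (hT' : Stable (IntermediateField.fixedField H) T)
      (χ : (M ≃ₐ[IntermediateField.fixedField H] M) →* ℂˣ),
      LinOK (θ.res (F := IntermediateField.fixedField H) hT') σ χ) :
    induced H ψ ∈ SE θ σ := by
  have hf := fixer_fixedField (K := K) (M := M) H
  have hgal : IsGalois (IntermediateField.fixedField H) M := inferInstance
  let ψ1 : fixer K (IntermediateField.fixedField H) M →* ℂˣ :=
    ψ.comp (Subgroup.inclusion (le_of_eq hf))
  have h2 : induced (fixer K (IntermediateField.fixedField H) M) ψ1 = induced H ψ :=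
    induced_congr hf fun x hx hx' => rfl
  rw [← h2, induced_eq_indj ψ1 (ψ1.comp (resF K (IntermediateField.fixedField H) M))
    fun y hy => rfl]
  exact se_of_lin hR θ hT.tower σ _ (h _ _)

end

section
variable {F M : Type} [Field F] [NumberField F] [Field M] [NumberField M] [Algebra F M]
  [IsGalois F M]

/-- the field of a linear character -/
theorem exists_quot (χ : (M ≃ₐ[F] M) →* ℂˣ) :
    ∃ (M₁ : Type) (_ : Field M₁) (_ : NumberField M₁) (_ : Algebra F M₁) (_ : Algebra M₁ M)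
      (_ : IsScalarTower F M₁ M) (_ : IsGalois F M₁) (χ₁ : (M₁ ≃ₐ[F] M₁) →* ℂˣ),
      Function.Injective χ₁ ∧ up M χ₁ = χ := by
  let H : Subgroup (M ≃ₐ[F] M) := χ.ker
  have hH : H.Normal := inferInstance
  have hG : IsGalois F (IntermediateField.fixedField H) :=
    IsGalois.of_fixedField_normal_subgroup H
  let e := IsGalois.normalAutEquivQuotient H
  let q : ((M ≃ₐ[F] M) ⧸ H) →* ℂˣ := QuotientGroup.kerLift χ
  refine ⟨IntermediateField.fixedField H, inferInstance, inferInstance, inferInstance,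
    inferInstance, inferInstance, hG, q.comp e.symm.toMonoidHom, ?_, ?_⟩
  · exact (QuotientGroup.kerLift_injective χ).comp e.symm.injective
  · ext g
    change ((q (e.symm (AlgEquiv.restrictNormalHom (IntermediateField.fixedField H) g)) : ℂˣ) : ℂ) = _
    have h1 : e (QuotientGroup.mk g) =
        AlgEquiv.restrictNormalHom (IntermediateField.fixedField H) g := rfl
    rw [← h1, MulEquiv.symm_apply_apply]
    rfl

end

section
variable {F M : Type} [Field F] [NumberField F] [Field M] [NumberField M] [Algebra F M]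
  [IsGalois F M]

/-- the values at the large levels -/
theorem vals_of_stark (j : M →ₐ[F] AlgebraicClosure F)
    (T : Finset (HeightOneSpectrum (𝓞 M))) (χ : (M ≃ₐ[F] M) →* ℂˣ) {ι : Type} [Fintype ι]
    [DecidableEq ι] (w : ι → Pl M) (α : ι → M)
    (h : ∀ (N : Type) [Field N] [NumberField N] [Algebra F N] [Algebra M N] [IsScalarTower F M N]
      [IsGalois F N] (T' : Finset (HeightOneSpectrum (𝓞 N))) (hT' : Stable F T'),
      ContainsRamified F T' → (∀ P : HeightOneSpectrum (𝓞 N), P.under (𝓞 M) ∈ T → P ∈ T') →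
      ∀ θ : StarkMap hT', ∃ e : ℂ, e ≠ 0 ∧ ∀ (σ : ℂ ≃+* ℂ) (χ' : (M ≃ₐ[F] M) →* ℂˣ),
        (∀ g, cf χ' g = σ (cf χ g)) →
        ∀ (n : ℕ) (ρ : Representation ℂ (N ≃ₐ[F] N) (Fin n → ℂ)),
          (∀ g, ρ.character g = cf (up N χ') g) →
          starkA θ ρ = σ e * (ellM χ' α w).det / leading T (cf χ'))
    (σ : ℂ ≃+* ℂ) (ψ : RL.Lin (base F)) (hψ : Infl (K := F) (E := F) (E' := base F) j ψ.fn (cf χ))
    (hst : StarkEq ψ.fn σ) :
    σ ((ellM χ α w).det / leading T (cf χ)) =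
      (ellM (cj σ χ) α w).det / leading T (cf (cj σ χ)) := by
  classical
  obtain ⟨N₁, hN₁, key⟩ := level_vals (K := F) (E := F) (E' := base F) orb
    Pool.Agent.Q277.SI.ram j (base_mem j) T χ w α h
  obtain ⟨N₀, hN₀, hσ⟩ := level_of_starkEq hst
  have hfd : FiniteDimensional F (N₀ ⊔ N₁ : IntermediateField F (AlgebraicClosure F)) :=
    IntermediateField.finiteDimensional_sup N₀ N₁
  obtain ⟨ℓ, hℓ⟩ := exists_lvl orb exi (N₀ ⊔ N₁)
  obtain ⟨e, he, h1⟩ := key ℓ (le_sup_right.trans hℓ)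
  have h2 := h1 (RingEquiv.refl ℂ) χ ψ.fn (fun _ => rfl) hψ
  have h3 := h1 σ (cj σ χ) (fun g => σ (ψ.fn g)) (fun _ => rfl) (fun y g hy =>
    congrArg σ (hψ y g hy))
  have h4 := hσ ℓ (le_sup_left.trans hℓ)
  rw [h2, h3] at h4
  have h6 : σ e ≠ 0 := (map_ne_zero σ).2 he
  change σ (e * (ellM χ α w).det / leading T (cf χ)) = _ at h4
  rw [mul_div_assoc, map_mul, mul_div_assoc] at h4
  exact mul_left_cancel₀ h6 h4

/-- the ramified primes -/
theorem exists_ram : ∃ T : Finset (HeightOneSpectrum (𝓞 M)),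
    (∀ P, P ∈ T ↔ ¬ Unrm M (P.under (𝓞 F))) := by
  obtain ⟨T, hT⟩ := exists_primes (K := F) (N := M) ∅ Set.finite_empty
  exact ⟨T, fun P => (hT P).trans ⟨fun h => h.resolve_right id, Or.inl⟩⟩

theorem ram_stable {T : Finset (HeightOneSpectrum (𝓞 M))}
    (hT : ∀ P, P ∈ T ↔ ¬ Unrm M (P.under (𝓞 F))) : Stable F T := by
  intro g P hP
  rw [hT] at hP ⊢
  rwa [under_pra orb]

theorem ram_contains {T : Finset (HeightOneSpectrum (𝓞 M))}
    (hT : ∀ P, P ∈ T ↔ ¬ Unrm M (P.under (𝓞 F))) : ContainsRamified F T := by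
  intro v hv
  obtain ⟨P, hP⟩ := (orb F F M).1 (.inl v)
  rcases P with P | P
  · have h4 : P.under (𝓞 F) = v := Sum.inl_injective hP
    exact ⟨P, (hT P).2 (h4 ▸ hv), h4⟩
  · exact absurd hP (by simp [dn])

theorem cj_triv {σ : ℂ ≃+* ℂ} {χ : (M ≃ₐ[F] M) →* ℂˣ} (h : ∀ g, χ g = 1) : cj σ χ = χ := by
  ext g
  rw [cj_val, h, Units.val_one, map_one]

/-- **Stark's equality for linear characters** at one level -/
theorem lin_ok {T : Finset (HeightOneSpectrum (𝓞 M))} {hT : Stable F T}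
    (hR : ContainsRamified F T) (θ : StarkMap hT) (σ : ℂ ≃+* ℂ) (χ : (M ≃ₐ[F] M) →* ℂˣ)
    (hS : ∀ ψ : RL.Lin (base F), ψ.smooth → StarkEq ψ.fn σ) : LinOK θ σ χ := by
  classical
  by_cases htr : ∀ g, χ g = 1
  · obtain ⟨q, hq⟩ := triv_stark (E := F) (M := M) orb exi Pool.Agent.Q123.SI.lfn
      Pool.Agent.Q299.SI.CN0.cn0 Pool.Agent.Q223.SI.rga Pool.Agent.Q223.SI.rgb hR θ 1 (linRep χ)
      (fun g => by rw [linRep_char, cf, htr, Units.val_one])
    unfold LinOK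
    rw [cj_triv htr, hq, map_ratCast]
  push Not at htr
  obtain ⟨M₁, _, _, _, _, _, _, χ₁, hinj, hup⟩ := exists_quot χ
  have hc : ∀ a b : M₁ ≃ₐ[F] M₁, a * b = b * a := fun a b =>
    hinj (by rw [map_mul, map_mul, mul_comm])
  obtain ⟨T₁, hT₁⟩ := exists_ram (F := F) (M := M₁)
  have hne : ∃ g, χ₁ g ≠ 1 := by
    obtain ⟨g, hg⟩ := htr
    refine ⟨AlgEquiv.restrictNormalHom M₁ g, fun h => hg ?_⟩
    rw [← hup]
    exact h
  obtain ⟨r, w, hw⟩ := exists_reps T₁ χ₁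
  obtain ⟨α, hα, hdet, h⟩ := cmpT F M₁ hc T₁ (ram_stable hT₁) (ram_contains hT₁) χ₁ hne (Fin r) w hw
  let j : M₁ →ₐ[F] AlgebraicClosure F := IsAlgClosed.lift
  obtain ⟨ψ, hinf, hψ⟩ := exists_infl (E := F) (E' := base F) j (base_mem j) χ₁
  have key := vals_of_stark j T₁ χ₁ w α h σ ψ hinf (hS ψ hψ)
  obtain ⟨e, he, h1⟩ := h M T hT hR (fun P hP => by
    by_contra hPT
    refine not_inS orb hT hPT ?_
    have h2 : ¬ Unrm M₁ (P.under (𝓞 F)) := by
      rw [hT₁] at hP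
      rwa [under_under (K := F) (F := M₁) P] at hP
    refine hR _ fun h3 => h2 ?_
    exact Unramified.sub h3) θ
  have e1 := h1 (RingEquiv.refl ℂ) χ₁ (fun _ => rfl) 1 (linRep χ) (fun g => by
    rw [linRep_char, hup])
  have e2 := h1 σ (cj σ χ₁) (fun _ => rfl) 1 (linRep (cj σ χ)) (fun g => by
    rw [linRep_char, ← hup]
    rfl)
  unfold LinOK
  rw [e1, e2]
  change σ (e * (ellM χ₁ α w).det / leading T₁ (cf χ₁)) = _
  rw [mul_div_assoc, map_mul, key, mul_div_assoc]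

end

/-- **Stark's conjecture from its case of linear characters** -/
theorem stark_of_linear (hS : ∀ (F : Type) [Field F] [NumberField F] (ψ : RL.Lin (base F)),
    ψ.smooth → ∀ σ : ℂ ≃+* ℂ, StarkEq ψ.fn σ) : StarkConjecture := by
  intro K L _ _ _ _ _ _ T hT hR φ V V' _ _ _ _ _ _ ρ ρ' σ hρ
  have h1 : ρ.character ∈ SE φ σ := char_in _ (fun H ψ => se_induced hR φ σ H ψ fun hT' χ =>
    lin_ok (hR.tower hT) _ σ χ fun ψ hψ => hS _ ψ hψ σ) ρ
  obtain ⟨h2, h2', e⟩ := h1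
  obtain ⟨h3, e3⟩ := starkA_val_self hR φ ρ
  obtain ⟨h4, e4⟩ := starkA_val_self hR φ ρ'
  rw [e3, e4]
  refine e.trans ?_
  congr 1
  exact Subtype.ext (funext fun g => (hρ g).symm)

end Pool.Agent.Q20.CU
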