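import Pool.Agent.Q20.CU.Def
import Pool.Agent.Q20.SI.All2

/-!
# Ramified primes and decomposition groups of the field of a linear character
-/

set_option autoImplicit false
set_option linter.unusedSectionVars false
set_option linter.deprecated false
set_option warn.classDefReducibility false

namespace Pool.Agent.Q20.CU

open NumberField IsDedekindDomain Pool.Agent.Q20.RS Pool.Agent.Q20.SI Pool.Agent.Q20.EX
open Pool.Agent.Q20.LG
open Pool.Agent.Q273.SP (IsPl Dec Ine Bad OnePlace)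
open Pool.Agent.Q246.BI (Smooth)

attribute [local instance] facAlg

section
variable {K : Type} [Field K] [NumberField K]

theorem pl_eq {p q : ℕ} (hp : p.Prime) (hq : q.Prime) {w : AlgebraicClosure K → ℝ}
    (hw : IsPl p w) (h : w (q : AlgebraicClosure K) < 1) : p = q := by
  by_contra hne
  have h1 : ¬ (p : ℤ) ∣ (q : ℤ) := by
    rw [Int.natCast_dvd_natCast, Nat.prime_dvd_prime_iff_eq hp hq]
    exact hne
  have h2 := hw.int_coprime hp h1
  rw [Int.cast_natCast] at h2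
  rw [h2] at h
  exact lt_irrefl _ h

variable {E M : Type} [Field E] [NumberField E] [Field M] [NumberField M]
  [Algebra K E] [Algebra K M] [Algebra E M] [IsScalarTower K E M] [IsGalois E M]
  {E' : RS.Sub K}

/-- the large normal extension -/
theorem setup (hfin : FinExt E') (j : M →ₐ[K] AlgebraicClosure K)
    (hE' : ∀ z, z ∈ E' ↔ ∃ x : E, j (algebraMap E M x) = z)
    {ψ₀ : E'.fixingSubgroup →* ℂˣ} (hsm : Smooth E' ψ₀) {χ : (M ≃ₐ[E] M) →* ℂˣ}
    (hinf : Infl (E' := E') j (fun g => ((ψ₀ g : ℂˣ) : ℂ)) (cf χ)) (hχ : Function.Injective χ) :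
    ∃ (iE : NumberField E') (N : IntermediateField K (AlgebraicClosure K))
      (_ : FiniteDimensional K N) (_ : NumberField N) (_ : Normal K N) (_ : Fact (E' ≤ N))
      (_ : Algebra E N) (_ : Algebra M N) (_ : IsScalarTower E M N) (_ : IsGalois E N),
      (∀ x : M, ((algebraMap M N x : N) : AlgebraicClosure K) = j x) ∧
      (∀ v ∈ AR E' N ψ₀, ∀ u, Above E' v u → RamAt ψ₀ u) ∧
      (∀ γ : N ≃ₐ[E] N, ∃ g : E'.fixingSubgroup, (∀ z : N, ((resN E' N g z : N) :
        AlgebraicClosure K) = ((γ z : N) : AlgebraicClosure K)) ∧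
        (ψ₀ g = 1 → ∀ x : M, γ (algebraMap M N x) = algebraMap M N x)) := by
  have iX : FiniteDimensional K E' := hfin
  have iX2 : NumberField E' := nf E'
  have iM : FiniteDimensional K M := inferInstance
  have iL : FiniteDimensional K j.fieldRange :=
    inferInstanceAs (FiniteDimensional K (LinearMap.range j.toLinearMap))
  obtain ⟨N, i1, i2, i3, i4, hle, -, hN⟩ := ram_const (X := E') ψ₀ hsm j.fieldRange
  let jN : M →ₐ[K] N := j.codRestrict N.toSubalgebra fun x => hle ⟨x, rfl⟩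
  let aM : Algebra M N := jN.toRingHom.toAlgebra
  let aE : Algebra E N := (jN.toRingHom.comp (algebraMap E M)).toAlgebra
  have t1 : IsScalarTower E M N := IsScalarTower.of_algebraMap_eq fun _ => rfl
  have t2 : IsScalarTower K E N := IsScalarTower.of_algebraMap_eq fun x => by
    change algebraMap K N x = jN (algebraMap E M (algebraMap K E x))
    rw [← IsScalarTower.algebraMap_apply K E M, AlgHom.commutes]
  have gKN : IsGalois K N := ⟨⟩
  have gEN : IsGalois E N := IsGalois.tower_top_of_isGalois K E N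
  have hjN : ∀ x : M, ((algebraMap M N x : N) : AlgebraicClosure K) = j x := fun _ => rfl
  refine ⟨iX2, N, i1, i2, i3, i4, aE, aM, t1, gEN, hjN, hN, fun γ => ?_⟩
  let γ' : N ≃ₐ[E'] N := AlgEquiv.ofRingEquiv (f := (γ : N ≃+* N)) fun z => by
    obtain ⟨e, he⟩ := (hE' _).1 z.2
    have h1 : algebraMap E' N z = algebraMap E N e := by
      apply Subtype.ext
      exact he.symm
    rw [h1]
    exact γ.commutes e
  obtain ⟨g, hg⟩ := resN_surjective (X := E') (N := N) γ'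
  refine ⟨g, fun z => by rw [hg]; rfl, fun h1 x => ?_⟩
  have h2 : ∀ z : N, ((γ z : N) : AlgebraicClosure K) = (g : Gal(AlgebraicClosure K/K)) z := by
    intro z
    rw [← resN_apply (X := E') (N := N) g z, hg]
    rfl
  have h3 : ∀ y : M, algebraMap M N ((AlgEquiv.restrictNormalHom M γ) y) = γ (algebraMap M N y) :=
    fun y => AlgEquiv.restrictNormal_commutes γ M y
  have h4 := hinf (AlgEquiv.restrictNormalHom M γ) g fun y => by
    rw [← hjN, h3, h2, hjN]
  have h5 : χ (AlgEquiv.restrictNormalHom M γ) = 1 := by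
    apply Units.ext
    change cf χ (AlgEquiv.restrictNormalHom M γ) = 1
    rw [h4]
    change ((ψ₀ g : ℂˣ) : ℂ) = 1
    rw [h1]
    rfl
  have h6 : AlgEquiv.restrictNormalHom M γ = 1 := hχ (h5.trans (map_one χ).symm)
  have h7 := h3 x
  rw [h6] at h7
  exact h7.symm

/-- ramified primes give bad places -/
theorem bad_ram (hfin : FinExt E') (j : M →ₐ[K] AlgebraicClosure K)
    (hE' : ∀ z, z ∈ E' ↔ ∃ x : E, j (algebraMap E M x) = z)
    {ψ₀ : E'.fixingSubgroup →* ℂˣ} (hsm : Smooth E' ψ₀) {χ : (M ≃ₐ[E] M) →* ℂˣ}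
    (hinf : Infl (E' := E') j (fun g => ((ψ₀ g : ℂˣ) : ℂ)) (cf χ)) (hχ : Function.Injective χ)
    {v : HeightOneSpectrum (𝓞 E)} (hv : ¬ Unrm M v) :
    ∃ (p : ℕ) (u : AlgebraicClosure K → ℝ), p.Prime ∧ IsPl p u ∧ ((p : ℕ) : 𝓞 E) ∈ v.asIdeal ∧
      ∃ g : E'.fixingSubgroup, Ine u (g : Gal(AlgebraicClosure K/K)) ∧ ψ₀ g ≠ 1 := by
  obtain ⟨iX2, N, i1, i2, i3, i4, aE, aM, t1, gEN, hjN, hN, hlift⟩ :=
    setup hfin j hE' hsm hinf hχ
  have iX : FiniteDimensional K E' := hfin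
  by_contra hcon
  push Not at hcon
  refine hv (Pool.Agent.Q111.EX.unram_of_inert (F := E) (E := M) (M := N) v
    fun w hw γ hγ x => ?_)
  obtain ⟨g, hg, hg1⟩ := hlift γ
  refine hg1 ?_ x
  by_contra hne
  have hgw : Inert w (resN E' N g) := by
    have h1 : ∀ z : N, resN E' N g z = γ z := fun z => Subtype.ext (hg z)
    intro z
    have h2 := hγ z
    rw [← h1] at h2
    exact h2
  obtain ⟨u, hu⟩ := exists_place E' (w.under (𝓞 E'))
  obtain ⟨g', hg', hne'⟩ := hN (w.under (𝓞 E')) ⟨w, rfl, g, hgw, hne⟩ u hu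
  obtain ⟨⟨p, hp, hup⟩, hu2⟩ := hu
  refine hne' (hcon p u hp hup ?_ g' hg')
  have h3 : ((p : ℕ) : 𝓞 E') ∈ (w.under (𝓞 E')).asIdeal := by
    rw [hu2]
    have h4 := hup.p_lt hp
    have h5 : ((((p : ℕ) : 𝓞 E') : E') : AlgebraicClosure K) = (p : AlgebraicClosure K) := by
      push_cast
      rfl
    rw [h5]
    exact h4
  have h6 : algebraMap (𝓞 E') (𝓞 N) ((p : ℕ) : 𝓞 E') ∈ w.asIdeal := h3
  rw [map_natCast] at h6
  rw [← hw]
  change algebraMap (𝓞 E) (𝓞 N) ((p : ℕ) : 𝓞 E) ∈ w.asIdeal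
  rwa [map_natCast]

/-- decomposition elements give elements of the decomposition groups of places -/
theorem bad_dec (hfin : FinExt E') (j : M →ₐ[K] AlgebraicClosure K)
    (hE' : ∀ z, z ∈ E' ↔ ∃ x : E, j (algebraMap E M x) = z)
    {ψ₀ : E'.fixingSubgroup →* ℂˣ} (hsm : Smooth E' ψ₀) {χ : (M ≃ₐ[E] M) →* ℂˣ}
    (hinf : Infl (E' := E') j (fun g => ((ψ₀ g : ℂˣ) : ℂ)) (cf χ)) (hχ : Function.Injective χ)
    {P : HeightOneSpectrum (𝓞 M)} {y : M ≃ₐ[E] M} (hy : pra y P = P) (hy1 : y ≠ 1) {q : ℕ}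
    (hq : q.Prime) (hqP : ((q : ℕ) : 𝓞 M) ∈ P.asIdeal) :
    ∃ u : AlgebraicClosure K → ℝ, IsPl q u ∧
      ∃ g : E'.fixingSubgroup, Dec u (g : Gal(AlgebraicClosure K/K)) ∧ ψ₀ g ≠ 1 := by
  obtain ⟨iX2, N, i1, i2, i3, i4, aE, aM, t1, gEN, hjN, hN, hlift⟩ :=
    setup hfin j hE' hsm hinf hχ
  have iX : FiniteDimensional K E' := hfin
  obtain ⟨o1, o2, o3, -⟩ := orb E M N
  obtain ⟨w, hw⟩ := o1 (.inl P)
  obtain ⟨γ₀, hγ₀⟩ := AlgEquiv.restrictNormalHom_surjective (F := E) (K₁ := M) N y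
  have h1 : dn M (pact γ₀ w) = dn M w := by
    rw [o2, hγ₀, hw]
    exact congrArg Sum.inl hy
  obtain ⟨h, hh1, hh2⟩ := o3 (pact γ₀ w) w h1
  rcases w with w | w
  swap
  · exact absurd hw (by simp [dn])
  have hwP : w.under (𝓞 M) = P := Sum.inl_injective hw
  have h2 : pra (h * γ₀) w = w := by
    rw [pra_mul]
    exact Sum.inl_injective hh2
  have h3 : AlgEquiv.restrictNormalHom M (h * γ₀) = y := by
    rw [map_mul, hh1, one_mul, hγ₀]
  obtain ⟨g, hg, -⟩ := hlift (h * γ₀)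
  have hact : Pool.Agent.TeamU.act (resN E' N g) w = w := by
    have h4 : (resN E' N g).toRingEquiv = (h * γ₀ : N ≃ₐ[E] N).toRingEquiv :=
      RingEquiv.ext fun z => Subtype.ext (hg z)
    have h5 : Pool.Agent.TeamU.act (resN E' N g) w = pra (h * γ₀) w := by
      unfold Pool.Agent.TeamU.act
      rw [h4]
      ext x
      exact Iff.rfl
    rw [h5, h2]
  obtain ⟨u, hu⟩ := exists_place N w
  obtain ⟨g', hg', hgg⟩ := dec_lift hu g hact
  obtain ⟨⟨p, hp, hup⟩, hu2⟩ := hu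
  have hpq : p = q := by
    refine pl_eq hp hq hup ?_
    have h6 : ((q : ℕ) : 𝓞 N) ∈ w.asIdeal := by
      have h7 : algebraMap (𝓞 M) (𝓞 N) ((q : ℕ) : 𝓞 M) ∈ w.asIdeal := by
        rw [← hwP] at hqP
        exact hqP
      rwa [map_natCast] at h7
    have h8 := (hu2 _).1 h6
    have h5 : ((((q : ℕ) : 𝓞 N) : N) : AlgebraicClosure K) = (q : AlgebraicClosure K) := by
      push_cast
      rfl
    rwa [h5] at h8
  subst hpq
  refine ⟨u, hup, g', hg', fun h9 => hy1 (hχ ?_)⟩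
  rw [map_one]
  apply Units.ext
  have h10 : ∀ z : N, (((h * γ₀ : N ≃ₐ[E] N) z : N) : AlgebraicClosure K) =
      (g' : Gal(AlgebraicClosure K/K)) z := by
    intro z
    rw [← hg, ← hgg, resN_apply]
  have h11 : ∀ x : M, algebraMap M N (y x) = (h * γ₀ : N ≃ₐ[E] N) (algebraMap M N x) := by
    intro x
    rw [← h3]
    exact AlgEquiv.restrictNormal_commutes (h * γ₀) M x
  have h12 := hinf y g' fun x => by
    rw [← hjN, h11, h10, hjN]
  change cf χ y = 1
  rw [h12]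
  change ((ψ₀ g' : ℂˣ) : ℂ) = 1
  rw [h9]
  rfl

end

end Pool.Agent.Q20.CU
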