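import Pool.Agent.Q20.CU.Unb
import Pool.Agent.Q20.CU.Loc
import Pool.Agent.Q273.SP.Main

/-!
# Stark's conjecture and units of cyclic extensions
-/

set_option autoImplicit false
set_option linter.unusedSectionVars false

namespace Pool.Agent.Q20.CU

open NumberField IsDedekindDomain Pool.Agent.Q20.RS Pool.Agent.Q20.SI
open Pool.Agent.Q20.RS.RL (StarkEq)
open Pool.Agent.Q273.SP (IsPl Dec Ine Bad OnePlace)
open Pool.Agent.Q246.BI (Smooth)

/-- the unit statement for the special extensions -/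
def Hyp (Q : Finset ℕ) : Prop :=
  ∀ (E L : Type) [Field E] [NumberField E] [Field L] [NumberField L] [Algebra E L]
    [IsGalois E L], Special E L Q → UnitStatement E L

/-- Stark's equality for the characters whose field is special -/
def HypE (Q : Finset ℕ) : Prop :=
  ∀ (K E M : Type) [Field K] [NumberField K] [Field E] [NumberField E] [Field M] [NumberField M]
    [Algebra K E] [Algebra K M] [Algebra E M] [IsScalarTower K E M] [IsGalois E M]
    (E' : RS.Sub K) (j : M →ₐ[K] AlgebraicClosure K) (χ : (M ≃ₐ[E] M) →* ℂˣ) (ψ : RL.Lin E'),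
    (∀ z, z ∈ E' ↔ ∃ x : E, j (algebraMap E M x) = z) → Infl (E' := E') j ψ.fn (cf χ) →
    Function.Injective χ → (∃ g, χ g ≠ 1) → Special E M Q → ∀ σ : ℂ ≃+* ℂ, StarkEq ψ.fn σ

theorem hypE_of_hyp {Q : Finset ℕ} (hU : Hyp Q) : HypE Q := by
  intro K E M _ _ _ _ _ _ _ _ _ _ _ E' j χ ψ hm hinf hinj hnt hsp σ
  exact starkEq_of_units j hm hinj hnt ψ hinf (hU E M hsp) σ

section
variable {K : Type} [Field K] [NumberField K] {E' : RS.Sub K}

/-- the condition in the definition of the special extensions -/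
def Cases (E L : Type) [Field E] [NumberField E] [Field L] [NumberField L] [Algebra E L]
    (Q : Finset ℕ) : Prop :=
  (IsEmpty (E →+* ℝ) ∧ (OnePrime E L Q ∨
      ∃ p k : ℕ, p.Prime ∧ p ≠ 2 ∧ Nat.card (L ≃ₐ[E] L) = p ^ k)) ∨
    ((∃ k : ℕ, Nat.card (L ≃ₐ[E] L) = 2 ^ k) ∧
      (IsEmpty (L →+* ℝ) ∨ ∀ v : HeightOneSpectrum (𝓞 E), Unrm L v))

/-- Stark's equality for a linear character whose field is special -/
theorem starkEq_of_case {Q : Finset ℕ} (hU : HypE Q) (hE : FinExt E') {ψ : RL.Lin E'}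
    (hψ : ψ.smooth) (hcs : ∀ (E M : Type) [Field E] [NumberField E] [Field M] [NumberField M]
      [Algebra K E] [Algebra K M] [Algebra E M] [IsScalarTower K E M] [IsGalois E M]
      (j : M →ₐ[K] AlgebraicClosure K) (χ : (M ≃ₐ[E] M) →* ℂˣ),
      (∀ z, z ∈ E' ↔ ∃ x : E, j (algebraMap E M x) = z) → Infl (E' := E') j ψ.fn (cf χ) →
      Function.Injective χ → (∀ y : M ≃ₐ[E] M, ∃ g : GalF E', ∀ x : M,
        j (y x) = (g : Gal(AlgebraicClosure K/K)) (j x)) → Cases E M Q) (σ : ℂ ≃+* ℂ) :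
    StarkEq ψ.fn σ := by
  classical
  by_cases htr : ∀ g, ψ.fn g = 1
  · exact triv_starkEq orb exi Pool.Agent.Q123.SI.lfn Pool.Agent.Q299.SI.CN0.cn0
      Pool.Agent.Q223.SI.rga Pool.Agent.Q223.SI.rgb hE htr σ
  obtain ⟨E, M, _, _, _, _, _, _, _, _, _, j, χ, hm, hinf, hinj, hlift⟩ :=
    Pool.Agent.Q214.SI.ker K E' hE ψ hψ
  have hnt : ∃ y, χ y ≠ 1 := by
    by_contra hn
    push Not at hn
    refine htr fun g => ?_
    obtain ⟨y, hy⟩ := exists_restr (K := K) (E := E) (E' := E') j hm g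
    rw [← hinf y g hy]
    unfold cf
    rw [hn, Units.val_one]
  have hsp : Special E M Q := by
    refine ⟨isCyclic_of_inj hinj, ?_, hcs E M j χ hm hinf hinj hlift⟩
    obtain ⟨y, hy⟩ := hnt
    exact ⟨y, fun h => hy (by rw [h, map_one])⟩
  exact hU K E M E' j χ ψ hm hinf hinj hnt hsp σ

theorem empty_of_empty {E M : Type} [Field E] [NumberField E] [Field M] [NumberField M]
    [Algebra K E] [Algebra K M] [Algebra E M] (j : M →ₐ[K] AlgebraicClosure K)
    (hm : ∀ z, z ∈ E' ↔ ∃ x : E, j (algebraMap E M x) = z) (h : IsEmpty (E' →+* ℝ)) :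
    IsEmpty (E →+* ℝ) := by
  let f : E →+* E' :=
    { toFun := fun x => ⟨j (algebraMap E M x), (hm _).2 ⟨x, rfl⟩⟩
      map_one' := Subtype.ext (by simp)
      map_mul' := fun a b => Subtype.ext (by simp)
      map_zero' := Subtype.ext (by simp)
      map_add' := fun a b => Subtype.ext (by simp) }
  have hf : Function.Bijective f := by
    refine ⟨f.injective, fun z => ?_⟩
    obtain ⟨x, hx⟩ := (hm z).1 z.2
    exact ⟨x, Subtype.ext hx⟩
  let e := RingEquiv.ofBijective f hf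
  exact ⟨fun φ => h.false (φ.comp (e.symm : E' →+* E))⟩

/-- the degree -/
theorem card_pow {E M : Type} [Field E] [NumberField E] [Field M] [NumberField M] [Algebra E M]
    [Algebra K M] {ψ : RL.Lin E'} (j : M →ₐ[K] AlgebraicClosure K) {χ : (M ≃ₐ[E] M) →* ℂˣ}
    (hinf : Infl (E' := E') j ψ.fn (cf χ)) (hinj : Function.Injective χ)
    (hlift : ∀ y : M ≃ₐ[E] M, ∃ g : GalF E', ∀ x : M,
        j (y x) = (g : Gal(AlgebraicClosure K/K)) (j x)) {p k : ℕ} (hp : p.Prime)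
    (h : ∀ g, ψ.fn g ^ p ^ k = 1) : ∃ m : ℕ, Nat.card (M ≃ₐ[E] M) = p ^ m := by
  obtain ⟨y, hy⟩ := isCyclic_of_inj hinj
  have h1 : y ^ p ^ k = 1 := by
    apply hinj
    obtain ⟨g, hg⟩ := hlift y
    have h2 := hinf y g hg
    rw [map_pow, map_one]
    apply Units.ext
    rw [Units.val_pow_eq_pow_val, Units.val_one]
    change cf χ y ^ p ^ k = 1
    rw [h2, h]
  have h2 : Nat.card (M ≃ₐ[E] M) = orderOf y := (orderOf_eq_card_of_forall_mem_zpowers hy).symm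
  rw [h2]
  obtain ⟨m, -, hm⟩ := (Nat.dvd_prime_pow hp).1 (orderOf_dvd_of_pow_eq_one h1)
  exact ⟨m, hm⟩

/-- concentrated ramification -/
theorem onePrime_of {Q : Finset ℕ} (hQ : ∀ q ∈ Q, q.Prime) {E M : Type} [Field E] [NumberField E]
    [Field M] [NumberField M] [Algebra K E] [Algebra K M] [Algebra E M] [IsScalarTower K E M]
    [IsGalois E M] (hfin : FinExt E') (j : M →ₐ[K] AlgebraicClosure K)
    (hm : ∀ z, z ∈ E' ↔ ∃ x : E, j (algebraMap E M x) = z)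
    {ψ₀ : E'.fixingSubgroup →* ℂˣ} (hsm : Smooth E' ψ₀) {χ : (M ≃ₐ[E] M) →* ℂˣ}
    (hinf : Infl (E' := E') j (fun g => ((ψ₀ g : ℂˣ) : ℂ)) (cf χ)) (hχ : Function.Injective χ)
    (h : OnePlace Q ⊥ E' ψ₀) : OnePrime E M Q := by
  classical
  have hbr : ∀ v : HeightOneSpectrum (𝓞 E), ¬ Unrm M v → ∃ (p : ℕ) (u : AlgebraicClosure K → ℝ),
      p.Prime ∧ IsPl p u ∧ ((p : ℕ) : 𝓞 E) ∈ v.asIdeal ∧ Bad Q p u E' ψ₀ := by
    intro v hv
    obtain ⟨p, u, hp, hu, hpv, g, hg, hg1⟩ := bad_ram hfin j hm hsm hinf hχ hv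
    exact ⟨p, u, hp, hu, hpv, Or.inl ⟨g, hg, hg1⟩⟩
  have hbd : ∀ q ∈ Q, ∀ P : HeightOneSpectrum (𝓞 M), ((q : ℕ) : 𝓞 M) ∈ P.asIdeal →
      ∀ g : M ≃ₐ[E] M, pra g P = P → g ≠ 1 → ∃ u : AlgebraicClosure K → ℝ, IsPl q u ∧
        Bad Q q u E' ψ₀ := by
    intro q hq P hP g hg hg1
    obtain ⟨u, hu, g', hg', hg2⟩ := bad_dec hfin j hm hsm hinf hχ hg hg1 (hQ q hq) hP
    exact ⟨u, hu, Or.inr ⟨hq, g', hg', hg2⟩⟩
  by_cases hb : ∃ (p : ℕ) (w : AlgebraicClosure K → ℝ), p.Prime ∧ IsPl p w ∧ Bad Q p w E' ψ₀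
  · obtain ⟨p, w, hp, hw, hbad⟩ := hb
    have key : ∀ (q : ℕ) (u : AlgebraicClosure K → ℝ), q.Prime → IsPl q u → Bad Q q u E' ψ₀ →
        q = p := by
      intro q u hq hu hb
      refine pl_eq hq hp hu ?_
      have h1 := h p q hp hq w u hw hu hbad hb ((p : ℕ) : 𝓞 (⊥ : IntermediateField K
        (AlgebraicClosure K)))
      have h5 : (((((p : ℕ) : 𝓞 (⊥ : IntermediateField K (AlgebraicClosure K))) :
          (⊥ : IntermediateField K (AlgebraicClosure K)))) : AlgebraicClosure K) =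
            (p : AlgebraicClosure K) := by
        push_cast
        rfl
      rw [h5] at h1
      exact h1.1 (hw.p_lt hp)
    refine ⟨p, hp, fun v hv => ?_, fun q hq hqp P hP g hg => ?_⟩
    · obtain ⟨q, u, hq, hu, hqv, hb⟩ := hbr v hv
      rwa [key q u hq hu hb] at hqv
    · by_contra hg1
      obtain ⟨u, hu, hb⟩ := hbd q hq P hP g hg hg1
      exact hqp (key q u (hQ q hq) hu hb)
  · refine ⟨2, Nat.prime_two, fun v hv => ?_, fun q hq _ P hP g hg => ?_⟩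
    · obtain ⟨q, u, hq, hu, hqv, hb'⟩ := hbr v hv
      exact absurd ⟨q, u, hq, hu, hb'⟩ hb
    · by_contra hg1
      obtain ⟨u, hu, hb'⟩ := hbd q hq P hP g hg hg1
      exact hb ⟨q, u, hQ q hq, hu, hb'⟩

/-- totally odd characters -/
theorem empty_of_odd {E M : Type} [Field E] [NumberField E] [Field M] [NumberField M]
    [Algebra K E] [Algebra K M] [Algebra E M] [IsScalarTower K E M] [IsGalois E M]
    (j : M →ₐ[K] AlgebraicClosure K) (hm : ∀ z, z ∈ E' ↔ ∃ x : E, j (algebraMap E M x) = z)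
    {ψ : RL.Lin E'} {χ : (M ≃ₐ[E] M) →* ℂˣ} (hinf : Infl (E' := E') j ψ.fn (cf χ))
    (ho : ψ.parity (-1)) : IsEmpty (M →+* ℝ) := by
  refine ⟨fun f => ?_⟩
  let φ : M →+* ℂ := Complex.ofRealHom.comp f
  have hφ : ComplexEmbedding.IsReal φ := by
    rw [ComplexEmbedding.isReal_iff]
    ext x
    change (starRingEnd ℂ) ((f x : ℝ) : ℂ) = ((f x : ℝ) : ℂ)
    exact Complex.conj_ofReal _
  let v : InfinitePlace M := InfinitePlace.mk φ
  have hv : v.IsReal := InfinitePlace.isReal_mk_iff.2 hφ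
  have hv' : (v.comap (algebraMap E M)).IsReal := hv.comap (algebraMap E M)
  refine odd_real j hm hinf ho v hv' fun g hg => ?_
  have h1 : g • v = v := Sum.inr_injective hg
  have h2 := (hv.isUnramified (k := E)).stabilizer_eq_bot
  have h3 : g ∈ MulAction.stabilizer (M ≃ₐ[E] M) v := h1
  rw [h2, Subgroup.mem_bot] at h3
  rw [h3, map_one]

/-- characters of order a power of two -/
theorem two_starkEq {Q : Finset ℕ} (hU : HypE Q) (hE : FinExt E') {ψ : RL.Lin E'}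
    (hψ : ψ.smooth) {k : ℕ} (hk : ∀ g, ψ.fn g ^ 2 ^ k = 1) (σ : ℂ ≃+* ℂ) : StarkEq ψ.fn σ := by
  -- totally odd characters and unramified characters
  have hodd : ∀ {E' : RS.Sub K} (_ : FinExt E') {ψ : RL.Lin E'} (_ : ψ.smooth) {k : ℕ},
      (∀ g, ψ.fn g ^ 2 ^ k = 1) → ψ.parity (-1) → StarkEq ψ.fn σ := by
    intro E' hE ψ hψ k hk ho
    refine starkEq_of_case hU hE hψ (fun E M _ _ _ _ _ _ _ _ _ j χ hm hinf hinj hlift =>
      Or.inr ⟨card_pow j hinf hinj hlift Nat.prime_two hk,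
        Or.inl (empty_of_odd j hm hinf ho)⟩) σ
  have hunr : ∀ {E' : RS.Sub K} (_ : FinExt E') {ψ : RL.Lin E'} (_ : ψ.smooth) {k : ℕ},
      (∀ g, ψ.fn g ^ 2 ^ k = 1) → ψ.unram → StarkEq ψ.fn σ := by
    intro E' hE ψ hψ k hk hu
    refine starkEq_of_case hU hE hψ (fun E M _ _ _ _ _ _ _ _ _ j χ hm hinf hinj hlift =>
      Or.inr ⟨card_pow j hinf hinj hlift Nat.prime_two hk,
        Or.inr (Pool.Agent.Q123.SI.Unk.unk K E M E' hE j hm ψ hψ χ hinf hinj hu)⟩) σ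
  obtain ⟨η, hη, ho⟩ := RL.exists_odd hE hψ (s := -1) (Or.inr rfl)
  have hmul : ∀ g, (ψ.mul η).fn g = ψ.fn g * η.fn g := by
    intro g
    let ψ' : GalF E' →* ℂˣ := ψ
    let η' : GalF E' →* ℂˣ := η
    change (((ψ' g * η' g : ℂˣ)) : ℂ) = _
    rw [Units.val_mul]
    rfl
  have hk1 : ∀ g, (ψ.mul η).fn g ^ 2 ^ (k + 1) = 1 := by
    intro g
    rw [hmul, mul_pow, pow_succ 2 k, pow_mul, hk, one_pow, one_mul, mul_comm (2 ^ k) 2, pow_mul,
      pow_two, hη.sq, one_pow]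
  have h1 : StarkEq (ψ.mul η).fn σ := hodd hE (RL.smooth_mul hψ hη.smooth) hk1 ho
  by_cases hne : ∀ g, η.fn g = 1
  · have h2 : (ψ.mul η).fn = ψ.fn := funext fun g => by rw [hmul, hne, mul_one]
    rwa [h2] at h1
  push Not at hne
  obtain ⟨d⟩ := RL.exists_dihedral hE hψ hη hne
  have hres : ∀ {F : RS.Sub K} (h : E' ≤ F), ∀ g, (ψ.res h).fn g ^ 2 ^ k = 1 := by
    intro F h g
    exact hk _
  have s₁ := hunr d.fin₁ (RL.smooth_res d.le₁ hψ) (hres d.le₁) d.unram₁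
  have s₂ := hunr d.fin₂ (RL.smooth_res d.le₂ hψ) (hres d.le₂) d.unram₂
  have s₃ := hunr d.fin₃ (RL.smooth_res d.le₃ hψ) (hres d.le₃) d.unram₃
  have e := dihedral_add (RL.defect_addInd (K := K) ⊥ σ) hE hψ hη.smooth d
  rw [(RL.defect_bot d.fin₁ (RL.smooth_char (RL.smooth_res d.le₁ hψ)) σ).2 s₁,
    (RL.defect_bot d.fin₂ (RL.smooth_char (RL.smooth_res d.le₂ hψ)) σ).2 s₂,
    (RL.defect_bot d.fin₃ (RL.smooth_char (RL.smooth_res d.le₃ hψ)) σ).2 s₃,
    (RL.defect_bot hE (RL.smooth_char (RL.smooth_mul hψ hη.smooth)) σ).2 h1,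
    add_zero, add_zero, add_zero] at e
  exact (RL.defect_bot hE (RL.smooth_char hψ) σ).1 e

end

/-- Stark's equality for all linear characters from the unit statement for the special extensions -/
theorem linear_of_hyp {Q : Finset ℕ} (hQ : ∀ q ∈ Q, q.Prime) (hU : HypE Q) (F : Type) [Field F]
    [NumberField F] (ψ : RL.Lin (base F)) (hψ : ψ.smooth) (σ : ℂ ≃+* ℂ) : StarkEq ψ.fn σ := by
  have hD := RL.defect_addInd (K := F) ⊥ σ
  have hF : FinExt (base F) := fin_base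
  rw [← RL.defect_bot hF (RL.smooth_char hψ) σ]
  have hfdb : FiniteDimensional F (base F) := hF
  refine Pool.Agent.Q273.SP.one_place_zero (K := F) (RL.defect (K := F) ⊥ σ)
    (fun E hE χ χ' h h' => hD.add E hE χ χ' h h') (fun E E' hle hE' χ h => hD.ind E E' hle hE' χ h)
    hQ ⊥ (fun E hE ψ hψ hcs => ?_) (base F) hfdb ψ.fn (RL.smooth_char hψ)
  let ψ' : RL.Lin E := ψ
  have hψ' : ψ'.smooth := hψ
  refine (RL.defect_bot (F := E) hE (RL.smooth_char hψ') σ).2 ?_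
  rcases hcs with ⟨h1, h2 | ⟨p, k, hp, hk⟩⟩ | ⟨k, hk⟩
  · exact starkEq_of_case hU hE hψ' (fun E M _ _ _ _ _ _ _ _ _ j χ hm hinf hinj hlift =>
      Or.inl ⟨empty_of_empty j hm h1, Or.inl (onePrime_of hQ hE j hm hψ hinf hinj h2)⟩) σ
  · have hk' : ∀ g, ψ'.fn g ^ p ^ k = 1 := fun g => by
      have h3 := congrArg (fun z : ℂˣ => (z : ℂ)) (hk g)
      rw [Units.val_pow_eq_pow_val, Units.val_one] at h3
      exact h3
    by_cases hp2 : p = 2
    · subst hp2
      exact two_starkEq hU hE hψ' hk' σ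
    · exact starkEq_of_case hU hE hψ' (fun E M _ _ _ _ _ _ _ _ _ j χ hm hinf hinj hlift =>
        Or.inl ⟨empty_of_empty j hm h1, Or.inr (by
          obtain ⟨m, hm⟩ := card_pow j hinf hinj hlift hp hk'
          exact ⟨p, m, hp, hp2, hm⟩)⟩) σ
  · refine two_starkEq hU hE hψ' (k := k) (fun g => ?_) σ
    have h3 := congrArg (fun z : ℂˣ => (z : ℂ)) (hk g)
    rw [Units.val_pow_eq_pow_val, Units.val_one] at h3
    exact h3

/-- **The theorem.** -/
theorem main {Q : Finset ℕ} (hQ : ∀ q ∈ Q, q.Prime) : StarkConjecture ↔ Hyp Q :=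
  ⟨fun hS _ _ _ _ _ _ _ _ h => units_of_stark hS h.cyclic h.ne,
    fun hU => stark_of_linear fun F _ _ ψ hψ σ => linear_of_hyp hQ (hypE_of_hyp hU) F ψ hψ σ⟩

end Pool.Agent.Q20.CU
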