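import Pool.Agent.Q20.CU.Main

/-!
# Stark's rational conjecture for abelian extensions from special cyclic extensions
-/

set_option autoImplicit false
set_option linter.unusedSectionVars false

namespace Pool.Agent.Q20.CU

open NumberField IsDedekindDomain Pool.Agent.Q20.RS Pool.Agent.Q20.SI
open Pool.Agent.Q20.RS.RL (StarkEq)

/-- Stark's conjecture of order `r` for the special extensions, `S` the archimedean places, the ramified
primes and at most one further prime -/
def HypO (Q : Finset ℕ) : Prop :=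
  ∀ (E L : Type) [Field E] [NumberField E] [Field L] [NumberField L] [Algebra E L]
    [IsGalois E L] (D : OrderData E L), Special E L Q →
    (∃ p : HeightOneSpectrum (𝓞 E), ∀ q ∈ D.S, q = p ∨ ¬ Unrm L q) → D.Q1

theorem hypE_of_hypO {Q : Finset ℕ} (hO : HypO Q) : HypE Q := by
  classical
  intro K E M _ _ _ _ _ _ _ _ _ _ _ E' j χ ψ hm hinf hinj hnt hsp σ
  have hfin : {v : HeightOneSpectrum (𝓞 E) | ¬ Unrm M v}.Finite :=
    Pool.Agent.Q92.AR.ramified_finite
  obtain ⟨y, hy⟩ := hnt
  obtain ⟨P, -, hP⟩ := Pool.Agent.Q123.SI.Nsp.nsp E M y ∅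
  let S : Finset (HeightOneSpectrum (𝓞 E)) := insert (P.under (𝓞 E)) hfin.toFinset
  obtain ⟨D, hDS, hex⟩ := exists_data Pool.Agent.Q182.SI.auxp S
    (fun p hp => Finset.mem_insert_of_mem (hfin.mem_toFinset.2 hp)) hinj
    ⟨.inl P, mem_abv.2 (Finset.mem_insert_self _ _), y, congrArg Sum.inl hP, fun h => hy (by
      rw [h, map_one])⟩
  have hQ := hO E M D hsp ⟨P.under (𝓞 E), fun q hq => by
    rw [hDS] at hq
    rcases Finset.mem_insert.1 hq with h | h
    · exact Or.inl h
    · exact Or.inr (hfin.mem_toFinset.1 h)⟩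
  exact starkEq_of_level (stark_of_q1 D cmpT Pool.Agent.Q176.SI.reg orb exi
    Pool.Agent.Q277.SI.ram hQ hex ⟨y, hy⟩ j hm ψ.fn hinf σ)

/-- all data from special data -/
theorem ord_main {Q : Finset ℕ} (hQ : ∀ q ∈ Q, q.Prime) (hO : HypO Q) (F K : Type) [Field F]
    [NumberField F] [Field K] [NumberField K] [Algebra F K] [IsGalois F K] (D : OrderData F K) :
    D.Q1 := by
  refine (order_iff D).2 fun χ _ hχ σ => ?_
  intro j ψ hψ
  exact linear_of_hyp hQ (hypE_of_hypO hO) F ψ (smooth_of_infl j hψ) σ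

end Pool.Agent.Q20.CU
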