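import Pool.Agent.Q20.CU.Lit

/-!
# The unit statement and Stark's equality
-/

set_option autoImplicit false
set_option linter.unusedSectionVars false

namespace Pool.Agent.Q20.CU

open NumberField IsDedekindDomain Pool.Agent.Q20.RS Pool.Agent.Q20.SI
open Pool.Agent.Q20.RS.RL (StarkEq)

section
variable {E M : Type} [Field E] [NumberField E] [Field M] [NumberField M] [Algebra E M]

theorem reps_of_split [IsGalois E M] {χ : (M ≃ₐ[E] M) →* ℂˣ} (hχ : Function.Injective χ)
    {T : Finset (HeightOneSpectrum (𝓞 M))} (hT : ∀ P, P ∈ T ↔ ¬ Unrm M (P.under (𝓞 E)))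
    {r : ℕ} {w : Fin r → InfinitePlace M} (hw : SplitPlaces E M w) :
    Reps χ T (fun i => (.inr (w i) : Pl M)) := by
  refine ⟨fun i => trivial, fun i g hg => ?_, fun v hv ht => ?_, fun i k g h => ?_⟩
  · rw [hw.split i g (Sum.inr_injective hg), map_one]
  · rcases v with P | v
    · obtain ⟨g, hg, hg1⟩ := ram_place orb P ((hT P).1 hv)
      exact absurd (hχ ((ht g (congrArg Sum.inl hg)).trans (map_one χ).symm)) hg1
    · obtain ⟨i, g, hg⟩ := hw.all v fun g hg =>
        hχ ((ht g (congrArg Sum.inr hg)).trans (map_one χ).symm)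
      exact ⟨i, g, congrArg Sum.inr hg⟩
  · exact hw.dist i k g (Sum.inr_injective h)

theorem exists_split {χ : (M ≃ₐ[E] M) →* ℂˣ} (hχ : Function.Injective χ) :
    ∃ (r : ℕ) (w : Fin r → InfinitePlace M), SplitPlaces E M w := by
  obtain ⟨r, w, hw⟩ := exists_reps (E := E) (M := M) ∅ χ
  have h1 : ∀ i, ∃ v : InfinitePlace M, w i = .inr v := by
    intro i
    rcases h : w i with P | v
    · have h2 := hw.mem i
      rw [h] at h2
      exact absurd h2 (Finset.notMem_empty P)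
    · exact ⟨v, rfl⟩
  choose v hv using h1
  refine ⟨r, v, fun i g hg => ?_, fun i k g hg => ?_, fun u hu => ?_⟩
  · refine hχ ((hw.triv i g ?_).trans (map_one χ).symm)
    rw [hv]
    exact congrArg Sum.inr hg
  · refine hw.inj i k g ?_
    rw [hv, hv]
    exact congrArg Sum.inr hg
  · obtain ⟨i, g, hg⟩ := hw.cover (.inr u) trivial fun g hg => by
      rw [hu g (Sum.inr_injective hg), map_one]
    refine ⟨i, g, ?_⟩
    rw [hv] at hg
    exact Sum.inr_injective hg

theorem logMatrix_eq {r : ℕ} (χ : (M ≃ₐ[E] M) →* ℂˣ) (u : Fin r → M)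
    (w : Fin r → InfinitePlace M) :
    logMatrix E M χ u w = ellM χ u (fun i => (.inr (w i) : Pl M)) := rfl

theorem isUnt_of_unit {T : Finset (HeightOneSpectrum (𝓞 M))} {u : M}
    (hu : ∀ P : HeightOneSpectrum (𝓞 M), NumberField.HeightOneSpectrum.adicAbv M P u = 1) :
    IsUnt T u := by
  refine ⟨fun h0 => ?_, fun P _ => hu P⟩
  obtain ⟨I, hI⟩ := Ideal.exists_maximal (𝓞 M)
  have h1 := hu ⟨I, hI.isPrime, Ring.ne_bot_of_isMaximal_of_not_isField hI
    (RingOfIntegers.not_isField M)⟩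
  rw [h0, map_zero] at h1
  exact zero_ne_one h1

variable {K : Type} [Field K] [NumberField K] [Algebra K E] [Algebra K M]
  [IsScalarTower K E M] [IsGalois E M] {E' : RS.Sub K}

/-- **Stark's equality from the unit statement** -/
theorem starkEq_of_units (j : M →ₐ[K] AlgebraicClosure K)
    (hm : ∀ z, z ∈ E' ↔ ∃ x : E, j (algebraMap E M x) = z)
    {χ : (M ≃ₐ[E] M) →* ℂˣ} (hχ : Function.Injective χ) (hne : ∃ g, χ g ≠ 1) (ψ : RL.Lin E')
    (hψ : Infl (E' := E') j ψ.fn (cf χ)) (hU : UnitStatement E M) (σ : ℂ ≃+* ℂ) :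
    StarkEq ψ.fn σ := by
  classical
  obtain ⟨T, hT⟩ := exists_ram (F := E) (M := M)
  obtain ⟨r, w₀, hw₀⟩ := exists_split hχ
  have hc : ∀ a b : M ≃ₐ[E] M, a * b = b * a := fun a b =>
    hχ (by rw [map_mul, map_mul, mul_comm])
  let w : Fin r → Pl M := fun i => .inr (w₀ i)
  have hw : Reps χ T w := reps_of_split hχ hT hw₀
  obtain ⟨a, u, hu, hQ⟩ := hU T hT r w₀ hw₀
  obtain ⟨α, hα, hdet, hst⟩ := stark_crit cmpT orb exi Pool.Agent.Q277.SI.ram hc j hm T
    (ram_stable hT) (ram_contains hT) χ hne w hw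
  refine starkEq_of_level ((hst σ ψ.fn hψ).2 fun χ' h' => ?_)
  have hd0 := hdet χ fun _ => Iff.rfl
  choose c hc' using fun i => cmp_span Pool.Agent.Q176.SI.reg exi T (ram_stable hT) χ hne w hw α hα
    hd0 (isUnt_of_unit (T := T) (hu i))
  let C : Matrix (Fin r) (Fin r) ℂ := Matrix.of fun l i => c i l
  have hC : ∀ (σ : ℂ ≃+* ℂ) (χ' : (M ≃ₐ[E] M) →* ℂˣ), (∀ g, cf χ' g = σ (cf χ g)) →
      (ellM χ' u w).det = (ellM χ' α w).det * σ C.det := by
    intro σ χ' h'
    have h1 : ellM χ' u w = ellM χ' α w * C.map σ := by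
      ext i k
      rw [Matrix.mul_apply]
      refine (hc' k σ χ' h' i).trans (Finset.sum_congr rfl fun l _ => ?_)
      change σ (c k l) * ell χ' (α l) (w i) = ell χ' (α l) (w i) * σ (c k l)
      ring
    have h2 : (C.map σ).det = σ C.det := ((σ : ℂ →+* ℂ).map_det C).symm
    rw [h1, Matrix.det_mul, h2]
  have hinj : ∀ (σ : ℂ ≃+* ℂ) (χ' : (M ≃ₐ[E] M) →* ℂˣ), (∀ g, cf χ' g = σ (cf χ g)) →
      Function.Injective χ' := by
    intro σ χ' h' g g' hg
    apply hχ
    apply Units.ext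
    apply σ.injective
    have h1 := congrArg (fun z : ℂˣ => (z : ℂ)) hg
    exact (h' g).symm.trans (h1.trans (h' g'))
  let B : ℂ := (∑ g, (a g : ℂ) * cf χ g) * C.det
  have hB : ∀ (σ : ℂ ≃+* ℂ) (χ' : (M ≃ₐ[E] M) →* ℂˣ), (∀ g, cf χ' g = σ (cf χ g)) →
      leading T (cf χ') = (ellM χ' α w).det * σ B := by
    intro σ χ' h'
    have h1 := hQ χ' (hinj σ χ' h')
    change leading T (cf χ') = (∑ g, (a g : ℂ) * cf χ' g) * (ellM χ' u w).det at h1
    rw [h1, hC σ χ' h']
    change _ = _ * σ ((∑ g, (a g : ℂ) * cf χ g) * C.det)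
    rw [map_mul, map_sum]
    have h2 : ∀ g, σ ((a g : ℂ) * cf χ g) = (a g : ℂ) * cf χ' g := by
      intro g
      rw [map_mul, map_ratCast, h']
    rw [Finset.sum_congr rfl fun g _ => h2 g]
    ring
  have h1 := hB (RingEquiv.refl ℂ) χ fun _ => rfl
  have h2 := hB σ χ' h'
  change leading T (cf χ) = (ellM χ α w).det * B at h1
  have n1 : leading T (cf χ) ≠ 0 := leading_ne (lin_mem _ _)
  have n2 : leading T (cf χ') ≠ 0 := leading_ne (lin_mem _ _)
  have n5 : B ≠ 0 := by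
    intro h0
    rw [h0, mul_zero] at h1
    exact n1 h1
  have n6 : σ B ≠ 0 := (map_ne_zero σ).2 n5
  have e1 : (ellM χ α w).det / leading T (cf χ) = 1 / B := by
    rw [div_eq_div_iff n1 n5]
    linear_combination -h1
  have e2 : (ellM χ' α w).det / leading T (cf χ') = 1 / σ B := by
    rw [div_eq_div_iff n2 n6]
    linear_combination -h2
  rw [e1, e2, map_div₀, map_one]

end

end Pool.Agent.Q20.CU
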