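import Pool.Agent.Q20.CU.Una
import Pool.Agent.Q20.CU.Fch

/-!
# The unit statement from Stark's conjecture
-/

set_option autoImplicit false
set_option linter.unusedSectionVars false

namespace Pool.Agent.Q20.CU

open NumberField IsDedekindDomain Pool.Agent.Q20.RS Pool.Agent.Q20.SI
open Pool.Agent.Q20.RS.RL (StarkEq)

section
variable {E M : Type} [Field E] [NumberField E] [Field M] [NumberField M] [Algebra E M]
  [IsGalois E M]

/-- modification of `T`-units to units -/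
theorem unit_mod {χ : (M ≃ₐ[E] M) →* ℂˣ} (hχ : Function.Injective χ)
    {T : Finset (HeightOneSpectrum (𝓞 M))} (hT : ∀ P, P ∈ T ↔ ¬ Unrm M (P.under (𝓞 E)))
    {r : ℕ} (α : Fin r → M) (hα : ∀ i, IsUnt T (α i)) (w : Fin r → Pl M) :
    ∃ (u : Fin r → M) (C : ℂ), C ≠ 0 ∧
      (∀ j (P : HeightOneSpectrum (𝓞 M)), NumberField.HeightOneSpectrum.adicAbv M P (u j) = 1) ∧
      ∀ (σ : ℂ ≃+* ℂ), (ellM (cj σ χ) u w).det = σ C * (ellM (cj σ χ) α w).det := by
  classical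
  have hc : ∀ a b : M ≃ₐ[E] M, a * b = b * a := fun a b =>
    hχ (by rw [map_mul, map_mul, mul_comm])
  let W : Finset (Pl M) := T.image Sum.inl
  have hW : ∀ w ∈ W, ∃ δ : M ≃ₐ[E] M, pact δ w = w ∧ χ δ ≠ 1 := by
    intro w hw
    obtain ⟨P, hP, rfl⟩ := Finset.mem_image.1 hw
    obtain ⟨g, hg, hg1⟩ := ram_place orb P ((hT P).1 hP)
    exact ⟨g, congrArg Sum.inl hg, fun h => hg1 (hχ (h.trans (map_one χ).symm))⟩
  let δ : Pl M → (M ≃ₐ[E] M) := fun w => if hw : w ∈ W then (hW w hw).choose else 1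
  have hδ : ∀ w ∈ W, pact (δ w) w = w ∧ χ (δ w) ≠ 1 := by
    intro w hw
    change pact (if hw : w ∈ W then (hW w hw).choose else 1) w = w ∧
      χ (if hw : w ∈ W then (hW w hw).choose else 1) ≠ 1
    rw [dif_pos hw]
    exact (hW w hw).choose_spec
  choose u hu hu0 hul using fun j => exists_mod hc (ram_stable hT) (hα j) δ W
    fun w hw => (hδ w hw).1
  let C : ((M ≃ₐ[E] M) →* ℂˣ) → ℂ := fun χ' => ∏ w ∈ W, (1 - (cf χ' (δ w))⁻¹)
  have hC0 : C χ ≠ 0 := by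
    refine Finset.prod_ne_zero_iff.2 fun w hw h0 => (hδ w hw).2 ?_
    have h1 := sub_eq_zero.1 h0
    have h2 : cf χ (δ w) = 1 := by rw [← inv_inv (cf χ (δ w)), ← h1, inv_one]
    exact Units.ext h2
  have hCσ : ∀ σ : ℂ ≃+* ℂ, C (cj σ χ) = σ (C χ) := by
    intro σ
    change ∏ w ∈ W, (1 - (cf (cj σ χ) (δ w))⁻¹) = σ (∏ w ∈ W, (1 - (cf χ (δ w))⁻¹))
    rw [map_prod]
    refine Finset.prod_congr rfl fun w _ => ?_
    rw [map_sub, map_one, map_inv₀]
    rfl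
  refine ⟨u, C χ ^ r, pow_ne_zero _ hC0, fun j P => ?_, fun σ => ?_⟩
  · by_cases hP : P ∈ T
    · have h1 := hu0 j (.inl P) (Finset.mem_image_of_mem _ hP) 1
      rw [pact_one] at h1
      refine Real.eq_one_of_pos_of_log_eq_zero ?_ h1
      rw [AbsoluteValue.pos_iff]
      exact (hu j).1
    · exact (hu j).2 P hP
  · have h1 : ellM (cj σ χ) u w = C (cj σ χ) • ellM (cj σ χ) α w := by
      ext i j
      exact hul j (cj σ χ) (w i)
    rw [h1, Matrix.det_smul, Fintype.card_fin, hCσ, map_pow]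

/-- `P ∩ M = P` -/
theorem under_self (P : HeightOneSpectrum (𝓞 M)) : P.under (𝓞 M) = P := by
  ext x
  exact Iff.rfl

theorem up_self (χ : (M ≃ₐ[E] M) →* ℂˣ) : up M χ = χ := by
  refine MonoidHom.ext fun g => ?_
  change χ (AlgEquiv.restrictNormalHom M g) = χ g
  congr 1
  ext x
  exact AlgEquiv.restrictNormal_commutes g M x

/-- **The unit statement from Stark's conjecture** -/
theorem units_of_stark (hS : StarkConjecture) (hcyc : IsCyclic (M ≃ₐ[E] M))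
    (hne : ∃ g : M ≃ₐ[E] M, g ≠ 1) : UnitStatement E M := by
  classical
  intro T hT r w₀ hw₀
  by_cases hex : ∃ χ₀ : (M ≃ₐ[E] M) →* ℂˣ, Function.Injective χ₀
  swap
  · exact ⟨fun _ => 0, fun _ => 1, fun _ _ => map_one _, fun χ hχ => absurd ⟨χ, hχ⟩ hex⟩
  obtain ⟨χ₀, hχ₀⟩ := hex
  have hc : ∀ a b : M ≃ₐ[E] M, a * b = b * a := fun a b =>
    hχ₀ (by rw [map_mul, map_mul, mul_comm])
  have hne' : ∃ g, χ₀ g ≠ 1 := by
    obtain ⟨g, hg⟩ := hne
    exact ⟨g, fun h => hg (hχ₀ (h.trans (map_one χ₀).symm))⟩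
  let w : Fin r → Pl M := fun i => .inr (w₀ i)
  have hw : Reps χ₀ T w := reps_of_split hχ₀ hT hw₀
  have hTs := ram_stable hT
  have hTr := ram_contains hT
  obtain ⟨α, hα, hdet, h⟩ := cmpT E M hc T hTs hTr χ₀ hne' (Fin r) w hw
  obtain ⟨θ⟩ := exi E M T hTs
  obtain ⟨e, he, h1⟩ := h M T hTs hTr (fun P hP => (iff_of_eq (congrArg (· ∈ T) (under_self P))).1 hP) θ
  have key : ∀ σ : ℂ ≃+* ℂ, σ ((ellM χ₀ α w).det / leading T (cf χ₀)) =
      (ellM (cj σ χ₀) α w).det / leading T (cf (cj σ χ₀)) := by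
    intro σ
    have e1 := h1 (RingEquiv.refl ℂ) χ₀ (fun _ => rfl) 1 (linRep χ₀) (fun g => by
      rw [linRep_char, up_self])
    have e2 := h1 σ (cj σ χ₀) (fun _ => rfl) 1 (linRep (cj σ χ₀)) (fun g => by
      rw [linRep_char, up_self])
    have e3 := hS E M T hTs hTr θ (Fin 1 → ℂ) (Fin 1 → ℂ) (linRep χ₀) (linRep (cj σ χ₀)) σ
      (fun g => by rw [linRep_char, linRep_char]; rfl)
    rw [e1, e2] at e3
    change σ (e * (ellM χ₀ α w).det / leading T (cf χ₀)) = _ at e3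
    rw [mul_div_assoc, map_mul, mul_div_assoc] at e3
    exact mul_left_cancel₀ ((map_ne_zero σ).2 he) e3
  obtain ⟨u, C, hC0, hu, hC⟩ := unit_mod hχ₀ hT α hα w
  have hl : ∀ χ : (M ≃ₐ[E] M) →* ℂˣ, leading T (cf χ) ≠ 0 := fun χ => leading_ne (lin_mem _ _)
  have hd : ∀ σ : ℂ ≃+* ℂ, (ellM (cj σ χ₀) α w).det ≠ 0 := fun σ => hdet _ (cj_one σ χ₀)
  let c : ((M ≃ₐ[E] M) →* ℂˣ) → ℂ := fun χ =>
    if Function.Injective χ then leading T (cf χ) / (ellM χ u w).det else 0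
  have hR : ∀ σ : ℂ ≃+* ℂ, leading T (cf (cj σ χ₀)) / (ellM (cj σ χ₀) u w).det =
      σ ((C * ((ellM χ₀ α w).det / leading T (cf χ₀)))⁻¹) := by
    intro σ
    have h2 := hd σ
    have h3 := hl (cj σ χ₀)
    have h4 : σ C ≠ 0 := (map_ne_zero σ).2 hC0
    rw [hC, map_inv₀, map_mul, key σ]
    field_simp
  have hinj : ∀ (σ : ℂ ≃+* ℂ) (χ : (M ≃ₐ[E] M) →* ℂˣ),
      Function.Injective (cj σ χ) ↔ Function.Injective χ := by
    intro σ χ
    constructor
    · intro h g g' hg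
      apply h
      apply Units.ext
      rw [cj_val, cj_val, hg]
    · intro h g g' hg
      apply h
      apply Units.ext
      apply σ.injective
      rw [← cj_val, ← cj_val, hg]
  have hcc : ∀ (τ : ℂ ≃+* ℂ) χ, c (cj τ χ) = τ (c χ) := by
    intro τ χ
    change (if Function.Injective (cj τ χ) then leading T (cf (cj τ χ)) /
      (ellM (cj τ χ) u w).det else 0) = τ (if Function.Injective χ then leading T (cf χ) /
        (ellM χ u w).det else 0)
    by_cases hi : Function.Injective χ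
    · rw [if_pos hi, if_pos ((hinj τ χ).2 hi)]
      obtain ⟨ρ, rfl⟩ := exists_cj hcyc hi hχ₀
      rw [cj_cj, hR, hR]
      rfl
    · rw [if_neg hi, if_neg fun h => hi ((hinj τ χ).1 h), map_zero]
  obtain ⟨a, ha⟩ := fourier c hcc
  refine ⟨a, u, hu, fun χ hχ => ?_⟩
  have h2 := ha χ
  change (if Function.Injective χ then leading T (cf χ) / (ellM χ u w).det else 0) = _ at h2
  rw [if_pos hχ] at h2
  have h3 : (ellM χ u w).det ≠ 0 := by
    obtain ⟨ρ, rfl⟩ := exists_cj hcyc hχ hχ₀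
    rw [hC]
    exact mul_ne_zero ((map_ne_zero ρ).2 hC0) (hd ρ)
  change leading T (cf χ) = (∑ g, (a g : ℂ) * ((χ g : ℂˣ) : ℂ)) * (ellM χ u w).det
  rw [← h2, div_mul_cancel₀ _ h3]

end

end Pool.Agent.Q20.CU
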